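import Mathlib

/-!
# A strongly non-contractive IFS on the real line whose basin is the whole line
-/

namespace Pool.Agent.Results.MP_b8546e_an.StronglyNoncontractive

open Set Filter Topology ENNReal

/-- `F(B) = ⋃_{f ∈ F} f(B)`. -/
def hutch {X : Type*} (F : Set (X → X)) (B : Set X) : Set X := ⋃ f ∈ F, f '' B

/-- The open set `U ⊇ A` such that `F^k(B) → A` in the Hausdorff metric for every nonempty compact
`B ⊆ U`. -/
def Attracts {X : Type*} [MetricSpace X] (F : Set (X → X)) (A U : Set X) : Prop :=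
  IsOpen U ∧ A ⊆ U ∧ ∀ B : Set X, IsCompact B → B.Nonempty → B ⊆ U →
    Tendsto (fun k : ℕ => Metric.hausdorffEDist ((hutch F)^[k] B) A) atTop (𝓝 0)

/-- `A` is an attractor of `F`. -/
def IsAttractor {X : Type*} [MetricSpace X] (F : Set (X → X)) (A : Set X) : Prop :=
  IsCompact A ∧ A.Nonempty ∧ hutch F A = A ∧ ∃ U : Set X, Attracts F A U

/-- The basin of `A`. -/
def basin {X : Type*} [MetricSpace X] (F : Set (X → X)) (A : Set X) : Set X :=
  ⋃₀ {U : Set X | Attracts F A U}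

/-- `Lip(f,d) = sup_{x ≠ y} d(f x, f y) / d(x, y) ∈ [0,∞]`. -/
noncomputable def Lip {X : Type*} (m : MetricSpace X) (f : X → X) : ℝ≥0∞ :=
  ⨆ (x : X) (y : X) (_ : x ≠ y), ENNReal.ofReal (m.dist (f x) (f y) / m.dist x y)

/-! ### the two maps -/

/-- the map on `[0,1]` -/
noncomputable def g (x : ℝ) : ℝ := if x ≤ 1 / 2 then |2 * x - 3 / 4| else x / 2

/-- The first map: `3/4` for `x ≤ 0`, `|2x - 3/4|` on `[0,1/2]`, `x/2` on `[1/2,1]`, `1/2` for
`x ≥ 1`. -/
noncomputable def f₁ (x : ℝ) : ℝ := g (max 0 (min 1 x))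

/-- The second map. -/
noncomputable def f₂ (x : ℝ) : ℝ := 1 - f₁ (1 - x)

lemma g_continuous : Continuous g := by
  unfold g
  refine Continuous.if_le (by fun_prop) (by fun_prop) continuous_id continuous_const ?_
  intro x hx
  rw [hx]
  norm_num [abs_of_pos]

lemma f₁_continuous : Continuous f₁ := g_continuous.comp (by fun_prop)

lemma f₂_continuous : Continuous f₂ := by
  unfold f₂
  exact continuous_const.sub (f₁_continuous.comp (by fun_prop))

lemma f₁_of_nonpos {x : ℝ} (h : x ≤ 0) : f₁ x = 3 / 4 := by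
  unfold f₁ g
  rw [min_eq_right (by linarith), max_eq_left h, if_pos (by norm_num)]
  norm_num [abs_of_neg]

lemma f₁_left {x : ℝ} (h0 : 0 ≤ x) (h1 : x ≤ 3 / 8) : f₁ x = 3 / 4 - 2 * x := by
  unfold f₁ g
  rw [min_eq_right (by linarith), max_eq_right h0, if_pos (by linarith),
    abs_of_nonpos (by linarith)]
  ring

lemma f₁_mid {x : ℝ} (h0 : 3 / 8 ≤ x) (h1 : x ≤ 1 / 2) : f₁ x = 2 * x - 3 / 4 := by
  unfold f₁ g
  rw [min_eq_right (by linarith), max_eq_right (by linarith), if_pos (by linarith),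
    abs_of_nonneg (by linarith)]

lemma f₁_right {x : ℝ} (h0 : 1 / 2 ≤ x) (h1 : x ≤ 1) : f₁ x = x / 2 := by
  rcases eq_or_lt_of_le h0 with h | h
  · rw [← h, f₁_mid (by norm_num) le_rfl]; norm_num
  · unfold f₁ g
    rw [min_eq_right h1, max_eq_right (by linarith), if_neg (by linarith)]

lemma f₁_of_one_le {x : ℝ} (h : 1 ≤ x) : f₁ x = 1 / 2 := by
  unfold f₁ g
  rw [min_eq_left h, max_eq_right (by norm_num), if_neg (by norm_num)]

lemma f₁_cases (x : ℝ) : (x ≤ 0 ∧ f₁ x = 3 / 4) ∨ (0 ≤ x ∧ x ≤ 3 / 8 ∧ f₁ x = 3 / 4 - 2 * x) ∨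
    (3 / 8 ≤ x ∧ x ≤ 1 / 2 ∧ f₁ x = 2 * x - 3 / 4) ∨ (1 / 2 ≤ x ∧ x ≤ 1 ∧ f₁ x = x / 2) ∨
    (1 ≤ x ∧ f₁ x = 1 / 2) := by
  rcases le_total x 0 with h | h
  · exact Or.inl ⟨h, f₁_of_nonpos h⟩
  rcases le_total x (3 / 8) with h' | h'
  · exact Or.inr (Or.inl ⟨h, h', f₁_left h h'⟩)
  rcases le_total x (1 / 2) with h2 | h2
  · exact Or.inr (Or.inr (Or.inl ⟨h', h2, f₁_mid h' h2⟩))
  rcases le_total x 1 with h3 | h3
  · exact Or.inr (Or.inr (Or.inr (Or.inl ⟨h2, h3, f₁_right h2 h3⟩)))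
  · exact Or.inr (Or.inr (Or.inr (Or.inr ⟨h3, f₁_of_one_le h3⟩)))

lemma f₂_cases (x : ℝ) : (1 ≤ x ∧ f₂ x = 1 / 4) ∨ (x ≤ 1 ∧ 5 / 8 ≤ x ∧ f₂ x = 9 / 4 - 2 * x) ∨
    (x ≤ 5 / 8 ∧ 1 / 2 ≤ x ∧ f₂ x = 2 * x - 1 / 4) ∨ (x ≤ 1 / 2 ∧ 0 ≤ x ∧ f₂ x = (1 + x) / 2) ∨
    (x ≤ 0 ∧ f₂ x = 1 / 2) := by
  unfold f₂
  rcases f₁_cases (1 - x) with h | h | h | h | h
  · exact Or.inl ⟨by linarith [h.1], by rw [h.2]; norm_num⟩
  · exact Or.inr (Or.inl ⟨by linarith [h.1], by linarith [h.2.1], by rw [h.2.2]; ring⟩)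
  · exact Or.inr (Or.inr (Or.inl ⟨by linarith [h.1], by linarith [h.2.1], by rw [h.2.2]; ring⟩))
  · exact Or.inr (Or.inr (Or.inr (Or.inl ⟨by linarith [h.1], by linarith [h.2.1],
      by rw [h.2.2]; ring⟩)))
  · exact Or.inr (Or.inr (Or.inr (Or.inr ⟨by linarith [h.1], by rw [h.2]; norm_num⟩)))

lemma f₁_mem (x : ℝ) : 0 ≤ f₁ x ∧ f₁ x ≤ 3 / 4 := by
  rcases f₁_cases x with h | h | h | h | h
  · rw [h.2]; norm_num
  · rw [h.2.2]; constructor <;> linarith [h.1, h.2.1]
  · rw [h.2.2]; constructor <;> linarith [h.1, h.2.1]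
  · rw [h.2.2]; constructor <;> linarith [h.1, h.2.1]
  · rw [h.2]; norm_num

lemma f₂_mem (x : ℝ) : 1 / 4 ≤ f₂ x ∧ f₂ x ≤ 1 := by
  unfold f₂
  constructor <;> linarith [(f₁_mem (1 - x)).1, (f₁_mem (1 - x)).2]

lemma f₁_ne_f₂ : f₁ ≠ f₂ := by
  intro h
  have h1 : f₁ 0 = 3 / 4 := f₁_of_nonpos le_rfl
  have h2 : f₂ 0 = 1 / 2 := by
    unfold f₂
    rw [f₁_of_one_le (by norm_num)]; norm_num
  rw [h, h2] at h1
  norm_num at h1

/-- The iterated function system. -/
def FF : Set (ℝ → ℝ) := {f₁, f₂}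

lemma mem_hutch {B : Set ℝ} {y : ℝ} : y ∈ hutch FF B ↔ ∃ x ∈ B, f₁ x = y ∨ f₂ x = y := by
  unfold hutch FF
  simp only [mem_insert_iff, mem_singleton_iff, iUnion_iUnion_eq_or_left, iUnion_iUnion_eq_left,
    mem_union, mem_image]
  constructor
  · rintro (⟨x, hx, rfl⟩ | ⟨x, hx, rfl⟩)
    · exact ⟨x, hx, Or.inl rfl⟩
    · exact ⟨x, hx, Or.inr rfl⟩
  · rintro ⟨x, hx, (h | h)⟩
    · exact Or.inl ⟨x, hx, h⟩
    · exact Or.inr ⟨x, hx, h⟩

lemma hutch_mono {B C : Set ℝ} (h : B ⊆ C) : hutch FF B ⊆ hutch FF C := by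
  intro y hy
  rw [mem_hutch] at hy ⊢
  obtain ⟨x, hx, h'⟩ := hy
  exact ⟨x, h hx, h'⟩

lemma iter_mono {B C : Set ℝ} (h : B ⊆ C) (k : ℕ) : (hutch FF)^[k] B ⊆ (hutch FF)^[k] C := by
  induction k with
  | zero => exact h
  | succ k ih =>
    rw [Function.iterate_succ_apply', Function.iterate_succ_apply']
    exact hutch_mono ih

lemma hutch_Icc : hutch FF (Icc 0 1) = Icc 0 1 := by
  apply Subset.antisymm
  · intro y hy
    rw [mem_hutch] at hy
    obtain ⟨x, _, (rfl | rfl)⟩ := hy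
    · exact ⟨(f₁_mem x).1, by linarith [(f₁_mem x).2]⟩
    · exact ⟨by linarith [(f₂_mem x).1], (f₂_mem x).2⟩
  · intro y hy
    rw [mem_hutch]
    rcases le_total y (3 / 4) with h | h
    · refine ⟨(3 / 4 - y) / 2, ⟨by linarith, by linarith [hy.1]⟩, Or.inl ?_⟩
      rw [f₁_left (by linarith) (by linarith [hy.1])]
      ring
    · refine ⟨1 - (3 / 4 - (1 - y)) / 2, ⟨by linarith [hy.2], by linarith⟩, Or.inr ?_⟩
      unfold f₂
      rw [f₁_left (by linarith) (by linarith [hy.2])]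
      ring

lemma iter_subset (B : Set ℝ) (k : ℕ) : (hutch FF)^[k + 1] B ⊆ Icc 0 1 := by
  rw [Function.iterate_succ_apply']
  intro y hy
  rw [mem_hutch] at hy
  obtain ⟨x, _, (rfl | rfl)⟩ := hy
  · exact ⟨(f₁_mem x).1, by linarith [(f₁_mem x).2]⟩
  · exact ⟨by linarith [(f₂_mem x).1], (f₂_mem x).2⟩

/-- the set `G` is reached in `k` steps from every point. -/
def RK (k : ℕ) (G : Set ℝ) : Prop := ∀ x : ℝ, ∃ y ∈ (hutch FF)^[k] {x}, y ∈ G

lemma RK_mono {k : ℕ} {G H : Set ℝ} (h : RK k G) (hGH : G ⊆ H) : RK k H := by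
  intro x
  obtain ⟨y, hy, hyG⟩ := h x
  exact ⟨y, hy, hGH hyG⟩

lemma RK_back {k : ℕ} {G : Set ℝ} (h : RK k (f₁ ⁻¹' G ∪ f₂ ⁻¹' G)) : RK (k + 1) G := by
  intro x
  obtain ⟨y, hy, hyG⟩ := h x
  rcases hyG with hyG | hyG
  · refine ⟨f₁ y, ?_, hyG⟩
    rw [Function.iterate_succ_apply', mem_hutch]
    exact ⟨y, hy, Or.inl rfl⟩
  · refine ⟨f₂ y, ?_, hyG⟩
    rw [Function.iterate_succ_apply', mem_hutch]
    exact ⟨y, hy, Or.inr rfl⟩

lemma RK_succ {k : ℕ} {G : Set ℝ} (h : RK k G) : RK (k + 1) G := by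
  intro x
  obtain ⟨y, hy, hyG⟩ := h (f₁ x)
  refine ⟨y, ?_, hyG⟩
  rw [Function.iterate_succ_apply]
  refine iter_mono ?_ k hy
  rw [singleton_subset_iff, mem_hutch]
  exact ⟨x, rfl, Or.inl rfl⟩

lemma RK_le {k l : ℕ} {G : Set ℝ} (h : RK k G) (hkl : k ≤ l) : RK l G := by
  induction l, hkl using Nat.le_induction with
  | base => exact h
  | succ l _ ih => exact RK_succ ih

/-- the set `G` is reached in a bounded number of steps. -/
def R (G : Set ℝ) : Prop := ∃ k, RK k G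

lemma R_mono {G H : Set ℝ} (h : R G) (hGH : G ⊆ H) : R H := by
  obtain ⟨k, hk⟩ := h
  exact ⟨k, RK_mono hk hGH⟩

lemma R_back {G H : Set ℝ} (h : R H) (hH : ∀ x ∈ H, f₁ x ∈ G ∨ f₂ x ∈ G) : R G := by
  obtain ⟨k, hk⟩ := h
  exact ⟨k + 1, RK_back (RK_mono hk fun x hx => (hH x hx))⟩

lemma R_univ : R univ := ⟨0, fun x => ⟨x, rfl, trivial⟩⟩

lemma R_left : R (Ioo 0 (1 / 2)) := by
  refine R_back (H := Ioo (1 / 8) (3 / 8) ∪ Ioi (3 / 8)) (R_back R_univ ?_) ?_
  · intro x _
    simp only [mem_union, mem_Ioo, mem_Ioi]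
    rcases f₁_cases x with h | h | h | h | h
    · left; right; rw [h.2]; norm_num
    · rcases lt_trichotomy x (3 / 16) with h' | h' | h'
      · left; right; rw [h.2.2]; linarith
      · right
        right
        rcases f₂_cases x with h2 | h2 | h2 | h2 | h2
        · linarith [h2.1]
        · linarith [h2.2.1]
        · linarith [h2.2.1]
        · rw [h2.2.2]; linarith
        · linarith [h2.1]
      · rcases lt_or_ge x (5 / 16) with h3 | h3
        · left; left; rw [h.2.2]; constructor <;> linarith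
        · right; right
          rcases f₂_cases x with h2 | h2 | h2 | h2 | h2
          · linarith [h2.1, h.2.1]
          · linarith [h2.1, h.2.1, h2.2.1]
          · linarith [h2.1, h.2.1, h2.2.1]
          · rw [h2.2.2]; linarith
          · linarith [h2.1]
    · right; right
      rcases f₂_cases x with h2 | h2 | h2 | h2 | h2
      · linarith [h2.1, h.2.1]
      · linarith [h2.1, h.2.1, h2.2.1]
      · rw [h2.2.2]; linarith [h2.2.1]
      · rw [h2.2.2]; linarith [h.1]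
      · linarith [h2.1, h.1]
    · rcases lt_trichotomy x (3 / 4) with h' | h' | h'
      · left; left; rw [h.2.2]; constructor <;> linarith [h.1]
      · right; right
        rcases f₂_cases x with h2 | h2 | h2 | h2 | h2
        · linarith [h2.1]
        · rw [h2.2.2]; linarith
        · linarith [h2.1]
        · linarith [h2.1]
        · linarith [h2.1]
      · left; right; rw [h.2.2]; linarith
    · left; right; rw [h.2]; norm_num
  · intro x hx
    simp only [mem_Ioo]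
    rcases hx with hx | hx
    · left
      rw [f₁_left (by linarith [hx.1]) hx.2.le]
      constructor <;> linarith [hx.1, hx.2]
    · have hx' : 3 / 8 < x := hx
      rcases lt_or_ge x 1 with h | h
      · left
        rcases le_total x (1 / 2) with h' | h'
        · rw [f₁_mid hx'.le h']; constructor <;> linarith
        · rw [f₁_right h' h.le]; constructor <;> linarith
      · right
        rcases f₂_cases x with h2 | h2 | h2 | h2 | h2
        · rw [h2.2]; norm_num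
        · rw [h2.2.2]; constructor <;> linarith [h2.1]
        · linarith [h2.1]
        · linarith [h2.1]
        · linarith [h2.1]

lemma R_symm {G : Set ℝ} (h : R G) : R ((fun x => 1 - x) ⁻¹' G) := by
  obtain ⟨k, hk⟩ := h
  refine ⟨k, fun x => ?_⟩
  obtain ⟨y, hy, hyG⟩ := hk (1 - x)
  have key : ∀ (k : ℕ) (y : ℝ), y ∈ (hutch FF)^[k] {1 - x} → (1 - y) ∈ (hutch FF)^[k] {x} := by
    intro k
    induction k with
    | zero =>
      intro y hy
      have : y = 1 - x := hy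
      rw [this]
      show 1 - (1 - x) = x
      ring
    | succ k ih =>
      intro y hy
      rw [Function.iterate_succ_apply', mem_hutch] at hy ⊢
      obtain ⟨z, hz, (h | h)⟩ := hy
      · refine ⟨1 - z, ih z hz, Or.inr ?_⟩
        unfold f₂
        rw [_root_.sub_sub_cancel, h]
      · refine ⟨1 - z, ih z hz, Or.inl ?_⟩
        unfold f₂ at h
        linarith
  refine ⟨1 - y, key k y hy, ?_⟩
  show 1 - (1 - y) ∈ G
  rwa [_root_.sub_sub_cancel]

lemma R_right : R (Ioo (1 / 2) 1) := by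
  refine R_mono (R_symm R_left) ?_
  intro x hx
  have h : 0 < 1 - x ∧ 1 - x < 1 / 2 := hx
  exact ⟨by linarith [h.2], by linarith [h.1]⟩

/-- the quarter `[1/4,1/2]` -/
lemma R_a {a b : ℝ} (ha : 1 / 4 ≤ a) (hb : b ≤ 1 / 2) (h : R (Ioo (2 * a) (2 * b))) :
    R (Ioo a b) := by
  refine R_back h ?_
  intro x hx
  left
  rw [f₁_right (by linarith [hx.1]) (by linarith [hx.2])]
  exact ⟨by linarith [hx.1], by linarith [hx.2]⟩

/-- the quarter `[1/2,3/4]` -/
lemma R_b {a b : ℝ} (ha : 1 / 2 ≤ a) (hb : b ≤ 3 / 4) (h : R (Ioo (2 * a - 1) (2 * b - 1))) :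
    R (Ioo a b) := by
  refine R_back h ?_
  intro x hx
  right
  have h1 : f₂ x = (1 + x) / 2 := by
    unfold f₂
    rw [f₁_right (by linarith [hx.2]) (by linarith [hx.1])]
    ring
  rw [h1]
  exact ⟨by linarith [hx.1], by linarith [hx.2]⟩

/-- the quarter `[0,1/4]` -/
lemma R_c {a b : ℝ} (ha : 0 ≤ a) (hb : b ≤ 1 / 4)
    (h : R (Ioo ((3 / 4 - b) / 2) ((3 / 4 - a) / 2))) : R (Ioo a b) := by
  refine R_back h ?_
  intro x hx
  left
  rw [f₁_left (by linarith [hx.1]) (by linarith [hx.2])]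
  exact ⟨by linarith [hx.2], by linarith [hx.1]⟩

lemma R_c' {a b : ℝ} (ha : 0 ≤ a) (hab : a < b) (hb : b ≤ 1 / 4)
    (h : R (Ioo (1 / 2 - 2 * b) (1 / 2 - 2 * a))) : R (Ioo a b) := by
  refine R_c ha hb (R_a (by linarith) (by linarith) (R_b (by linarith) (by linarith) ?_))
  have h1 : 2 * (2 * ((3 / 4 - b) / 2)) - 1 = 1 / 2 - 2 * b := by ring
  have h2 : 2 * (2 * ((3 / 4 - a) / 2)) - 1 = 1 / 2 - 2 * a := by ring
  rw [h1, h2]
  exact h

lemma R_refl {a b : ℝ} (h : R (Ioo (1 - b) (1 - a))) : R (Ioo a b) := by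
  refine R_mono (R_symm h) ?_
  intro x hx
  have h : 1 - b < 1 - x ∧ 1 - x < 1 - a := hx
  exact ⟨by linarith [h.2], by linarith [h.1]⟩

lemma R_dyadic (m : ℕ) : ∀ j : ℕ, j + 1 ≤ 2 ^ (m + 1) →
    R (Ioo ((j : ℝ) / 2 ^ (m + 1)) (((j : ℝ) + 1) / 2 ^ (m + 1))) := by
  induction m with
  | zero =>
    intro j hj
    have hj' : j = 0 ∨ j = 1 := by
      norm_num at hj; omega
    rcases hj' with rfl | rfl
    · simpa using R_left
    · norm_num
      exact R_right
  | succ m ih =>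
    intro j hj
    have hp : (0 : ℝ) < 2 ^ m := by positivity
    have e1 : (2 : ℝ) ^ (m + 1) = 2 * 2 ^ m := by ring
    have e2 : (2 : ℝ) ^ (m + 1 + 1) = 4 * 2 ^ m := by ring
    have n1 : (2 : ℕ) ^ (m + 1) = 2 * 2 ^ m := by ring
    have n2 : (2 : ℕ) ^ (m + 1 + 1) = 4 * 2 ^ m := by ring
    rw [n2] at hj
    rw [n1] at ih
    rw [e2]
    rw [e1] at ih
    have hlt : (j : ℝ) / (4 * 2 ^ m) < ((j : ℝ) + 1) / (4 * 2 ^ m) := by
      apply div_lt_div_of_pos_right _ (by positivity)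
      linarith
    by_cases c1 : j < 2 ^ m
    · -- first quarter
      have hc : ((j : ℝ) + 1) ≤ 2 ^ m := by exact_mod_cast c1
      apply R_c' (by positivity) hlt
      · rw [div_le_div_iff₀ (by positivity) (by norm_num)]
        linarith
      have h := ih (2 ^ m - 1 - j) (by omega)
      have hcast : ((2 ^ m - 1 - j : ℕ) : ℝ) = 2 ^ m - 1 - j := by
        rw [Nat.cast_sub (by omega), Nat.cast_sub Nat.one_le_two_pow]
        push_cast
        ring
      rw [hcast] at h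
      convert h using 2 <;> field_simp <;> ring
    by_cases c2 : j < 2 * 2 ^ m
    · -- second quarter
      have hc1 : (2 : ℝ) ^ m ≤ j := by exact_mod_cast (not_lt.mp c1)
      have hc2 : ((j : ℝ) + 1) ≤ 2 * 2 ^ m := by exact_mod_cast c2
      apply R_a
      · rw [div_le_div_iff₀ (by norm_num) (by positivity)]
        linarith
      · rw [div_le_div_iff₀ (by positivity) (by norm_num)]
        linarith
      have h := ih j (by omega)
      convert h using 2 <;> field_simp <;> ring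
    by_cases c3 : j < 3 * 2 ^ m
    · -- third quarter
      have hc1 : 2 * (2 : ℝ) ^ m ≤ j := by exact_mod_cast (not_lt.mp c2)
      have hc2 : ((j : ℝ) + 1) ≤ 3 * 2 ^ m := by exact_mod_cast c3
      apply R_b
      · rw [div_le_div_iff₀ (by norm_num) (by positivity)]
        linarith
      · rw [div_le_div_iff₀ (by positivity) (by norm_num)]
        linarith
      have h := ih (j - 2 * 2 ^ m) (by omega)
      have hcast : ((j - 2 * 2 ^ m : ℕ) : ℝ) = j - 2 * 2 ^ m := by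
        rw [Nat.cast_sub (by omega)]
        push_cast
        ring
      rw [hcast] at h
      convert h using 2 <;> field_simp <;> ring
    · -- fourth quarter
      have hc1 : 3 * (2 : ℝ) ^ m ≤ j := by exact_mod_cast (not_lt.mp c3)
      have hc2 : ((j : ℝ) + 1) ≤ 4 * 2 ^ m := by exact_mod_cast hj
      apply R_refl
      apply R_c'
      · rw [sub_nonneg, div_le_one (by positivity)]
        exact hc2
      · linarith
      · rw [sub_le_iff_le_add, ← sub_le_iff_le_add', le_div_iff₀ (by positivity)]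
        linarith
      have h := ih (j - 3 * 2 ^ m) (by omega)
      have hcast : ((j - 3 * 2 ^ m : ℕ) : ℝ) = j - 3 * 2 ^ m := by
        rw [Nat.cast_sub (by omega)]
        push_cast
        ring
      rw [hcast] at h
      convert h using 2 <;> field_simp <;> ring

/-- every open interval meeting `[0,1]` is reached. -/
lemma R_ball {y ε : ℝ} (hy : y ∈ Icc (0 : ℝ) 1) (hε : 0 < ε) : R (Ioo (y - ε) (y + ε)) := by
  obtain ⟨m, hm⟩ := exists_pow_lt_of_lt_one hε (by norm_num : (1 / 2 : ℝ) < 1)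
  have hp : (0 : ℝ) < 2 ^ (m + 1) := by positivity
  have hm' : 1 / (2 : ℝ) ^ (m + 1) < ε := by
    have h1 : 1 / (2 : ℝ) ^ (m + 1) ≤ (1 / 2) ^ m := by
      rw [one_div_pow]
      apply one_div_le_one_div_of_le (by positivity)
      exact pow_le_pow_right₀ (by norm_num) (by omega)
    linarith
  -- the dyadic interval
  set q : ℕ := ⌊y * 2 ^ (m + 1)⌋₊ with hq
  have hq1 : (q : ℝ) ≤ y * 2 ^ (m + 1) := Nat.floor_le (mul_nonneg hy.1 hp.le)
  have hq2 : y * 2 ^ (m + 1) < q + 1 := Nat.lt_floor_add_one _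
  set j : ℕ := min q (2 ^ (m + 1) - 1) with hj
  have hj1 : j + 1 ≤ 2 ^ (m + 1) := by
    have : 0 < 2 ^ (m + 1) := by positivity
    omega
  have h := R_dyadic m j hj1
  have hjy : (j : ℝ) ≤ y * 2 ^ (m + 1) := by
    refine le_trans ?_ hq1
    exact_mod_cast min_le_left _ _
  have hyj : y * 2 ^ (m + 1) ≤ j + 1 := by
    rcases le_total q (2 ^ (m + 1) - 1) with h' | h'
    · rw [hj, min_eq_left h']; exact hq2.le
    · rw [hj, min_eq_right h']
      have h1 : ((2 ^ (m + 1) - 1 : ℕ) : ℝ) + 1 = 2 ^ (m + 1) := by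
        rw [Nat.cast_sub Nat.one_le_two_pow]
        push_cast
        ring
      rw [h1]
      nlinarith [hy.2]
  refine R_mono h ?_
  have hm2 : 1 < ε * 2 ^ (m + 1) := by
    rwa [div_lt_iff₀ hp] at hm'
  apply Ioo_subset_Ioo
  · rw [le_div_iff₀ hp]
    nlinarith
  · rw [div_le_iff₀ hp]
    nlinarith

/-- Convergence. -/
lemma conv (B : Set ℝ) (hB : B.Nonempty) :
    Tendsto (fun k : ℕ => Metric.hausdorffEDist ((hutch FF)^[k] B) (Icc 0 1)) atTop (𝓝 0) := by
  obtain ⟨x, hx⟩ := hB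
  rw [ENNReal.tendsto_atTop_zero]
  intro ε hε
  -- a real radius
  obtain ⟨δ, hδ0, hδ⟩ : ∃ δ : ℝ, 0 < δ ∧ ENNReal.ofReal δ ≤ ε := by
    rcases eq_or_ne ε ∞ with h | h
    · exact ⟨1, one_pos, by rw [h]; exact le_top⟩
    · exact ⟨ε.toReal, ENNReal.toReal_pos hε.ne' h, by rw [ENNReal.ofReal_toReal h]⟩
  -- a finite net
  obtain ⟨t, htsub, htfin, htcov⟩ := (isCompact_Icc (a := (0 : ℝ)) (b := 1)).finite_cover_balls
    (half_pos hδ0)
  have hR : ∀ y ∈ t, ∃ k, RK k (Ioo (y - δ / 2) (y + δ / 2)) := fun y hy =>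
    R_ball (htsub hy) (half_pos hδ0)
  choose! K hK using hR
  obtain ⟨N, hN⟩ : ∃ N, ∀ y ∈ t, K y ≤ N := by
    obtain ⟨N, hN⟩ := (htfin.image K).bddAbove
    exact ⟨N, fun y hy => hN (mem_image_of_mem K hy)⟩
  refine ⟨N + 1, fun k hk => ?_⟩
  refine le_trans ?_ hδ
  refine Metric.hausdorffEDist_le_of_mem_edist ?_ ?_
  · intro z hz
    obtain ⟨k', rfl⟩ : ∃ k', k = k' + 1 := ⟨k - 1, by omega⟩
    exact ⟨z, iter_subset B k' hz, by rw [edist_self]; exact bot_le⟩
  · intro z hz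
    obtain ⟨y, hy, hzy⟩ : ∃ y ∈ t, z ∈ Metric.ball y (δ / 2) := by
      have := htcov hz
      simpa using this
    obtain ⟨w, hw, hwI⟩ := RK_le (hK y hy) (le_trans (hN y hy) (Nat.le_of_succ_le hk)) x
    refine ⟨w, iter_mono (singleton_subset_iff.mpr hx) k hw, ?_⟩
    rw [edist_dist]
    apply ENNReal.ofReal_le_ofReal
    have h1 : dist z y < δ / 2 := hzy
    have h2 : dist y w < δ / 2 := by
      rw [Real.dist_eq, abs_lt]
      constructor <;> linarith [hwI.1, hwI.2]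
    linarith [dist_triangle z y w]

lemma isAttractor : IsAttractor FF (Icc (0 : ℝ) 1) :=
  ⟨isCompact_Icc, ⟨0, by norm_num⟩, hutch_Icc, univ, isOpen_univ, subset_univ _,
    fun B _ hB _ => conv B hB⟩

lemma basin_eq : basin FF (Icc (0 : ℝ) 1) = univ := by
  apply eq_univ_of_univ_subset
  exact subset_sUnion_of_mem (show univ ∈ {U : Set ℝ | Attracts FF (Icc (0 : ℝ) 1) U} from
    ⟨isOpen_univ, subset_univ _, fun B _ hB _ => conv B hB⟩)

lemma minimal (G : Set (ℝ → ℝ)) (hG : G ⊂ FF) : ¬ IsAttractor G (Icc (0 : ℝ) 1) := by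
  rintro ⟨_, _, h, _⟩
  obtain ⟨hsub, hne⟩ := hG
  have h01 : f₁ ∉ G ∨ f₂ ∉ G := by
    by_contra hcon
    push Not at hcon
    apply hne
    rintro f (rfl | rfl)
    · exact hcon.1
    · exact hcon.2
  rcases h01 with h1 | h1
  · have h0 : (0 : ℝ) ∈ hutch G (Icc (0 : ℝ) 1) := by rw [h]; norm_num
    unfold hutch at h0
    simp only [mem_iUnion] at h0
    obtain ⟨f, hf, x, _, hx⟩ := h0
    rcases hsub hf with rfl | rfl
    · exact h1 hf
    · linarith [(f₂_mem x).1]
  · have h0 : (1 : ℝ) ∈ hutch G (Icc (0 : ℝ) 1) := by rw [h]; norm_num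
    unfold hutch at h0
    simp only [mem_iUnion] at h0
    obtain ⟨f, hf, x, _, hx⟩ := h0
    rcases hsub hf with rfl | rfl
    · linarith [(f₁_mem x).2]
    · exact h1 hf

/-- A map with a fixed point and a backward orbit converging to it (not starting at it) has
Lipschitz constant `> 1` for every compatible metric. -/
lemma one_lt_Lip {X : Type*} [t : TopologicalSpace X] (m : MetricSpace X)
    (hm : m.toPseudoMetricSpace.toUniformSpace.toTopologicalSpace = t) (f : X → X) (p : X)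
    (hp : f p = p) (x : ℕ → X) (hx : ∀ k, f (x (k + 1)) = x k) (hlim : Tendsto x atTop (𝓝 p))
    (h0 : x 0 ≠ p) : 1 < Lip m f := by
  subst hm
  have hne : ∀ k, x k ≠ p := by
    intro k
    induction k with
    | zero => exact h0
    | succ k ih =>
      intro h
      apply ih
      rw [← hx k, h, hp]
  have hpos : ∀ k, 0 < dist (x k) p := fun k => dist_pos.mpr (hne k)
  obtain ⟨k, hk⟩ : ∃ k, dist (x (k + 1)) p < dist (x k) p := by
    by_contra hcon
    push Not at hcon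
    have hmono : ∀ k, dist (x 0) p ≤ dist (x k) p := by
      intro k
      induction k with
      | zero => exact le_rfl
      | succ k ih => exact le_trans ih (hcon k)
    have h1 : Tendsto (fun k => dist (x k) p) atTop (𝓝 0) := tendsto_iff_dist_tendsto_zero.mp hlim
    have h2 := ge_of_tendsto' h1 hmono
    linarith [hpos 0]
  have h1 : 1 < ENNReal.ofReal (dist (f (x (k + 1))) (f p) / dist (x (k + 1)) p) := by
    rw [← ENNReal.ofReal_one]
    rw [ENNReal.ofReal_lt_ofReal_iff_of_nonneg zero_le_one, hx k, hp, lt_div_iff₀ (hpos _),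
      one_mul]
    exact hk
  refine lt_of_lt_of_le h1 ?_
  exact le_iSup_of_le (x (k + 1)) (le_iSup_of_le p (le_iSup_of_le (hne (k + 1)) le_rfl))

/-- the backward orbit -/
noncomputable def xs (k : ℕ) : ℝ := 1 / 4 + 1 / 8 * (-1 / 2) ^ k

lemma xs_lim : Tendsto xs atTop (𝓝 (1 / 4)) := by
  have h : Tendsto (fun k : ℕ => (-1 / 2 : ℝ) ^ k) atTop (𝓝 0) :=
    tendsto_pow_atTop_nhds_zero_of_abs_lt_one (by norm_num [abs_of_neg])
  have h2 := (h.const_mul (1 / 8 : ℝ)).const_add (1 / 4 : ℝ)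
  rw [mul_zero, add_zero] at h2
  exact h2

lemma abs_pow_le (k : ℕ) : |(-1 / 2 : ℝ) ^ k| ≤ 1 := by
  rw [abs_pow]
  apply pow_le_one₀ (abs_nonneg _)
  norm_num [abs_of_neg]

lemma f₁_xs (k : ℕ) : f₁ (xs (k + 1)) = xs k := by
  have h := abs_le.mp (abs_pow_le (k + 1))
  unfold xs
  rw [f₁_left (by linarith [h.1]) (by linarith [h.2])]
  ring

lemma f₁_fix : f₁ (1 / 4) = 1 / 4 := by
  rw [f₁_left (by norm_num) (by norm_num)]; norm_num

/-- There is an iterated function system `F` of two continuous maps on the real line, with an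
attractor `A` whose basin is all of `ℝ`, such that no proper subset of `F` has `A` as an attractor
and `Lip(f,d) > 1` for every `f ∈ F` and every metric `d` inducing the usual topology of `ℝ`. -/
theorem result :
    ∃ (F : Set (ℝ → ℝ)) (A : Set ℝ), F.Finite ∧ F.ncard = 2 ∧ (∀ f ∈ F, Continuous f) ∧
      IsAttractor F A ∧ basin F A = univ ∧
      (∀ G : Set (ℝ → ℝ), G ⊂ F → ¬ IsAttractor G A) ∧
      ∀ m : MetricSpace ℝ,
        m.toPseudoMetricSpace.toUniformSpace.toTopologicalSpace =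
          (Real.metricSpace.toPseudoMetricSpace.toUniformSpace.toTopologicalSpace) →
        ∀ f ∈ F, 1 < Lip m f := by
  refine ⟨FF, Icc 0 1, (Set.finite_singleton _).insert _, Set.ncard_pair f₁_ne_f₂, ?_,
    isAttractor, basin_eq, minimal, ?_⟩
  · rintro f (rfl | rfl)
    · exact f₁_continuous
    · exact f₂_continuous
  · rintro m hm f (rfl | rfl)
    · refine one_lt_Lip m hm f₁ (1 / 4) f₁_fix xs f₁_xs xs_lim ?_
      norm_num [xs]
    · refine one_lt_Lip m hm f₂ (3 / 4) ?_ (fun k => 1 - xs k) ?_ ?_ ?_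
      · have h : (1 : ℝ) - 3 / 4 = 1 / 4 := by norm_num
        unfold f₂
        rw [h, f₁_fix]; norm_num
      · intro k
        show 1 - f₁ (1 - (1 - xs (k + 1))) = 1 - xs k
        rw [_root_.sub_sub_cancel, f₁_xs]
      · have h := xs_lim.const_sub (1 : ℝ)
        have e : (1 : ℝ) - 1 / 4 = 3 / 4 := by norm_num
        rwa [e] at h
      · norm_num [xs]

end Pool.Agent.Results.MP_b8546e_an.StronglyNoncontractive
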